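import Pool.Agent.Helper21.AC0p.Simul

/-!
Soundness, with controlled loss of powers of `t`, of schematic rules for the low degree
polynomials attached to formulas.
-/

namespace Pool.Agent.Helper80.FW

open Pool.Agent.Helper21.AC0p
open scoped BigOperators Classical

/-- degree of the polynomial of a formula of depth `k` -/
def Dg (p l k : ℕ) : ℕ := (l * (p - 1)) ^ k

theorem Dg_zero (p l : ℕ) : Dg p l 0 = 1 := pow_zero _

theorem Dg_succ (p l k : ℕ) : Dg p l (k + 1) = l * (p - 1) * Dg p l k := by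
  unfold Dg; rw [pow_succ]; ring

theorem Dg_mono {p l : ℕ} (h : 1 ≤ l * (p - 1)) {a b : ℕ} (hab : a ≤ b) :
    Dg p l a ≤ Dg p l b := Nat.pow_le_pow_right h hab

theorem Dg_pos {p l : ℕ} (h : 1 ≤ l * (p - 1)) (a : ℕ) : 1 ≤ Dg p l a := Nat.one_le_pow _ _ h

/-- The properties of the polynomials attached to formulas that are used for soundness. -/
structure HatSys (p l : ℕ) {𝒜 : Type*} [CommRing 𝒜] (t : 𝒜) (x : ℕ → 𝒜) (hat : Fm → 𝒜) :
    Prop where
  var : ∀ i, hat (.var i) = x i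
  idem : ∀ A, hat A * hat A = t ^ Dg p l A.depth * hat A
  neg : ∀ A, hat (.neg A) =
    t ^ (Dg p l (A.depth + 1) - Dg p l A.depth) * (t ^ Dg p l A.depth - hat A)
  mod : ∀ (m : ℕ) (f : Fin m → Fm), hat (.mod m f) =
    t ^ ((l - 1) * (p - 1) * Dg p l (Finset.univ.sup fun i => (f i).depth)) *
      (t ^ ((p - 1) * Dg p l (Finset.univ.sup fun i => (f i).depth)) -
        (∑ i, t ^ (Dg p l (Finset.univ.sup fun i => (f i).depth) - Dg p l (f i).depth) *
          hat (f i)) ^ (p - 1))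
  or : ∀ (m : ℕ) (f : Fin m → Fm), hat (.or m f) ∈ Ideal.span (Set.range fun i => hat (f i))

/-- The errors of the disjunctions in `A` are zero (with slack `s0`). -/
def ErrFree (p l s0 : ℕ) {𝒜 : Type*} [CommRing 𝒜] (t : 𝒜) (hat : Fm → 𝒜) (A : Fm) : Prop :=
  ∀ (m : ℕ) (f : Fin m → Fm), Fm.IsSub (.or m f) A → ∀ i,
    t ^ s0 * (hat (f i) * (t ^ Dg p l (Fm.or m f).depth - hat (.or m f))) = 0

section
variable {p l : ℕ} {𝒜 : Type*} [CommRing 𝒜] {t : 𝒜} {x : ℕ → 𝒜} {hat : Fm → 𝒜}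

theorem HatSys.neg_mul (H : HatSys p l t x hat) (hl : 1 ≤ l * (p - 1)) (A : Fm) (v : 𝒜)
    {b : Bool} (hv : hat A * v = if b then t ^ Dg p l A.depth * v else 0) :
    hat (.neg A) * v = if (!b) then t ^ Dg p l (Fm.neg A).depth * v else 0 := by
  rw [H.neg, mul_assoc, sub_mul, hv]
  have h1 : Dg p l A.depth ≤ Dg p l (A.depth + 1) := Dg_mono hl (Nat.le_succ _)
  cases b
  · simp only [Bool.false_eq_true, if_false, sub_zero, Bool.not_false, if_true]
    rw [← mul_assoc, ← pow_add, Nat.sub_add_cancel h1]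
    rfl
  · simp

theorem HatSys.orL_mem (H : HatSys p l t x hat) (L : List Fm) (I : Ideal 𝒜)
    (h : ∀ B ∈ L, hat B ∈ I) : hat (Fm.orL L) ∈ I := by
  have := H.or L.length L.get
  refine Ideal.span_le.mpr ?_ this
  rintro _ ⟨i, rfl⟩
  exact h _ (L.get_mem i)

theorem HatSys.orL_nil (H : HatSys p l t x hat) : hat (Fm.orL []) = 0 := by
  have := H.orL_mem [] ⊥ (by simp)
  simpa using this

/-- `v` is killed by all items of the list up to `t ^ f`, hence by the disjunction. -/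
theorem HatSys.orL_killed (H : HatSys p l t x hat) (L : List Fm) (f : ℕ) (v : 𝒜)
    (h : ∀ B ∈ L, t ^ f * (hat B * v) = 0) : t ^ f * (hat (Fm.orL L) * v) = 0 := by
  let I : Ideal 𝒜 := Ideal.torsionOf 𝒜 𝒜 (t ^ f * v)
  have : hat (Fm.orL L) ∈ I := by
    refine H.orL_mem L I fun B hB => ?_
    rw [Ideal.mem_torsionOf_iff, smul_eq_mul, ← h B hB]
    ring
  rw [Ideal.mem_torsionOf_iff, smul_eq_mul] at this
  rw [← this]
  ring

theorem ErrFree.orL {s0 : ℕ} {L : List Fm} (h : ErrFree p l s0 t hat (Fm.orL L)) {B : Fm}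
    (hB : B ∈ L) :
    t ^ s0 * (hat B * (t ^ Dg p l (Fm.orL L).depth - hat (Fm.orL L))) = 0 := by
  obtain ⟨i, rfl⟩ := List.get_of_mem hB
  exact h L.length L.get Fm.IsSub.refl i

theorem isSub_trans {A B C : Fm} (h : Fm.IsSub A B) (h' : Fm.IsSub B C) : Fm.IsSub A C := by
  induction h' with
  | refl => exact h
  | neg _ ih => exact Fm.IsSub.neg ih
  | or i _ ih => exact Fm.IsSub.or i ih
  | mod i _ ih => exact Fm.IsSub.mod i ih

theorem ErrFree.sub {s0 : ℕ} {A B : Fm} (h : ErrFree p l s0 t hat A) (hs : Fm.IsSub B A) :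
    ErrFree p l s0 t hat B := fun m f hm => h m f (isSub_trans hm hs)

theorem depth_orL_mem {L : List Fm} {B : Fm} (hB : B ∈ L) : B.depth + 1 ≤ (Fm.orL L).depth := by
  obtain ⟨i, rfl⟩ := List.get_of_mem hB
  have : (L.get i).depth ≤ Finset.univ.sup fun i => (L.get i).depth :=
    Finset.le_sup (f := fun i => (L.get i).depth) (Finset.mem_univ i)
  exact Nat.succ_le_succ this

theorem depth_modL_mem {L : List Fm} {B : Fm} (hB : B ∈ L) :
    B.depth + 1 ≤ (Fm.modL L).depth := by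
  obtain ⟨i, rfl⟩ := List.get_of_mem hB
  have : (L.get i).depth ≤ Finset.univ.sup fun i => (L.get i).depth :=
    Finset.le_sup (f := fun i => (L.get i).depth) (Finset.mem_univ i)
  exact Nat.succ_le_succ this

end

/-! ### Sum of the values -/

section
variable (p : ℕ) [hp : Fact p.Prime] {𝒜 : Type*} [CommRing 𝒜] [CharP 𝒜 p]

theorem sum_pow_zmod (j : ℕ) (hj : j < p - 1) : ∑ g : ZMod p, g ^ j = 0 := by
  have := FiniteField.sum_pow_lt_card_sub_one (K := ZMod p) j (by rw [ZMod.card]; exact hj)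
  exact this

theorem sum_pow_zmod' : ∑ g : ZMod p, g ^ (p - 1) = -1 := by
  have h1 : ∀ g : ZMod p, g ^ (p - 1) = 1 - if g = 0 then 1 else 0 := by
    intro g
    by_cases hg : g = 0
    · rw [if_pos hg, hg, zero_pow (Nat.sub_pos_of_lt hp.out.one_lt).ne', sub_self]
    · rw [if_neg hg, ZMod.pow_card_sub_one_eq_one hg, sub_zero]
  rw [Finset.sum_congr rfl (fun g _ => h1 g), Finset.sum_sub_distrib]
  simp

/-- the sum of the projectors -/
theorem sum_proj (e y : 𝒜) :
    ∑ g : ZMod p, (e - (g.val : 𝒜) * y) ^ (p - 1) = - y ^ (p - 1) := by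
  have hp1 : 0 < p - 1 := Nat.sub_pos_of_lt hp.out.one_lt
  let φ : ZMod p →+* 𝒜 := ZMod.castHom (dvd_refl p) 𝒜
  have hφ : ∀ g : ZMod p, (g.val : 𝒜) = φ g := by
    intro g
    rw [ZMod.castHom_apply, ZMod.natCast_val]
  have h1 : ∀ g : ZMod p, (e - (g.val : 𝒜) * y) ^ (p - 1) =
      ∑ m ∈ Finset.range (p - 1 + 1), φ (g ^ (p - 1 - m)) *
        (e ^ m * (-y) ^ (p - 1 - m) * ((p - 1).choose m)) := by
    intro g
    rw [sub_eq_add_neg, add_pow]
    refine Finset.sum_congr rfl fun m _ => ?_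
    rw [hφ, map_pow, show -(φ g * y) = φ g * (-y) by ring, mul_pow]
    ring
  rw [Finset.sum_congr rfl fun g _ => h1 g, Finset.sum_comm]
  have h2 : ∀ m ∈ Finset.range (p - 1 + 1), ∑ g : ZMod p, φ (g ^ (p - 1 - m)) *
        (e ^ m * (-y) ^ (p - 1 - m) * ((p - 1).choose m)) =
      if m = 0 then - (-y) ^ (p - 1) else 0 := by
    intro m hm
    rw [← Finset.sum_mul, ← map_sum]
    by_cases h0 : m = 0
    · subst h0
      rw [if_pos rfl, Nat.sub_zero, sum_pow_zmod', map_neg, map_one]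
      simp
    · rw [if_neg h0, sum_pow_zmod p _ (by omega), map_zero, zero_mul]
  rw [Finset.sum_congr rfl h2, Finset.sum_ite_eq' (Finset.range (p - 1 + 1)) 0]
  rw [if_pos (by simp), neg_pow]
  rcases hp.out.eq_two_or_odd' with h | h
  · have h2 : (2 : 𝒜) = 0 := by
      have := CharP.cast_eq_zero 𝒜 p
      rw [h] at this
      exact_mod_cast this
    have h3 : (-1 : 𝒜) = 1 := by linear_combination (-1 : 𝒜) * h2
    rw [h3, one_pow, one_mul]
  · rw [Even.neg_one_pow, one_mul]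
    exact Nat.Odd.sub_odd h odd_one

/-- Splitting by one element with values in the prime field. -/
theorem split_one {t e : 𝒜} {D N : ℕ} (he : e ^ p = t ^ (D * (p - 1)) * e)
    (hN : D * (p - 1) ≤ N) {v : 𝒜} (hv : t ^ N * v ≠ 0) :
    ∃ (g : ZMod p) (a : 𝒜), e * (a * v) = (g.val : 𝒜) * (t ^ D * (a * v)) ∧
      t ^ (N - D * (p - 1)) * (a * v) ≠ 0 := by
  have hp1 : 0 < p - 1 := Nat.sub_pos_of_lt hp.out.one_lt
  have hpp : p - 1 + 1 = p := Nat.sub_add_cancel hp.out.one_lt.le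
  let a : ZMod p → 𝒜 := fun g => t ^ (D * (p - 1)) - (e - (g.val : 𝒜) * t ^ D) ^ (p - 1)
  have ha : ∀ g, (e - (g.val : 𝒜) * t ^ D) * a g = 0 := by
    intro g
    have h1 : (e - (g.val : 𝒜) * t ^ D) * a g =
        t ^ (D * (p - 1)) * (e - (g.val : 𝒜) * t ^ D) - (e - (g.val : 𝒜) * t ^ D) ^ p := by
      have h4 : ∀ b : 𝒜, b * b ^ (p - 1) = b ^ p := by
        intro b
        rw [← pow_succ', hpp]
      simp only [a]
      rw [← h4]
      ring
    have h2 : (e - (g.val : 𝒜) * t ^ D) ^ p = e ^ p - (g.val : 𝒜) * t ^ (D * p) := by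
      rw [sub_pow_char, mul_pow, ← pow_mul]
      congr 2
      have h3 : (g.val : 𝒜) ^ p = ((g ^ p).val : 𝒜) := by
        rw [ZMod.natCast_val, ZMod.natCast_val]
        exact (map_pow (ZMod.castHom (dvd_refl p) 𝒜) g p).symm
      rw [h3, ZMod.pow_card]
    rw [h1, h2, he]
    have h3 : t ^ (D * p) = t ^ (D * (p - 1)) * t ^ D := by
      rw [← pow_add]
      congr 1
      conv_lhs => rw [← hpp]
      ring
    rw [h3]
    ring
  have hsum : ∑ g, a g = t ^ (D * (p - 1)) := by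
    simp only [a]
    rw [Finset.sum_sub_distrib, sum_proj]
    simp only [Finset.sum_const, Finset.card_univ, ZMod.card, nsmul_eq_mul, CharP.cast_eq_zero,
      zero_mul, zero_sub, neg_neg]
    rw [← pow_mul]
  have hex : ∃ g, t ^ (N - D * (p - 1)) * (a g * v) ≠ 0 := by
    by_contra hcon
    push Not at hcon
    apply hv
    calc t ^ N * v = t ^ (N - D * (p - 1)) * (t ^ (D * (p - 1)) * v) := by
          rw [← mul_assoc, ← pow_add, Nat.sub_add_cancel hN]
      _ = ∑ g, t ^ (N - D * (p - 1)) * (a g * v) := by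
          rw [← hsum, Finset.sum_mul, Finset.mul_sum]
      _ = 0 := Finset.sum_eq_zero fun g _ => hcon g
  obtain ⟨g, hg⟩ := hex
  refine ⟨g, a g, ?_, hg⟩
  have := ha g
  linear_combination v * this

theorem pow_char_of_idem {t e : 𝒜} {D : ℕ} (he : e * e = t ^ D * e) :
    e ^ p = t ^ (D * (p - 1)) * e := by
  have hpp : p - 1 + 1 = p := Nat.sub_add_cancel hp.out.one_lt.le
  have key : ∀ n, e ^ (n + 1) = t ^ (D * n) * e := by
    intro n
    induction n with
    | zero => simp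
    | succ n ih =>
      rw [pow_succ, ih, mul_assoc, he, ← mul_assoc, ← pow_add]
      congr 2
  have := key (p - 1)
  rwa [hpp] at this

end

end Pool.Agent.Helper80.FW
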