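import Pool.Agent.Helper80.FW.Val

/-!
A refutation all of whose disjunctions (and the disjunctions of its prefixes) have no error
makes a power of `t` vanish.
-/

namespace Pool.Agent.Helper80.FW

open Pool.Agent.Helper21.AC0p
open scoped BigOperators Classical

section
variable {p l : ℕ} {𝒜 : Type*} [CommRing 𝒜] {t : 𝒜} {x : ℕ → 𝒜} {hat : Fm → 𝒜}

/-- The polynomial of a literal. -/
def litP (t : 𝒜) (x : ℕ → 𝒜) (c : Lit) : 𝒜 := if c.2 then x c.1 else t - x c.1

theorem lit_hat (H : HatSys p l t x hat) (hl : 1 ≤ l * (p - 1)) (c : Lit) (v : 𝒜) {e : ℕ}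
    (h : t ^ e * (hat (litFm c) * v) = 0) : t ^ (e + Dg p l 1) * (litP t x c * v) = 0 := by
  unfold litFm at h
  unfold litP
  split_ifs with hc
  · rw [if_pos hc, H.var] at h
    exact kill_le (Nat.le_add_right _ _) h
  · rw [if_neg hc, H.neg, H.var] at h
    have h1 : (Fm.var c.1).depth = 0 := rfl
    rw [h1, zero_add, Dg_zero, pow_one] at h
    have h2 : t ^ (e + (Dg p l 1 - 1)) * ((t - x c.1) * v) = 0 := by
      rw [pow_add, ← h]; ring
    exact kill_le (by omega) h2

/-- The clause axioms hold up to a power of `t`. -/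
theorem clause_sound (H : HatSys p l t x hat) (hl : 1 ≤ l * (p - 1)) {s0 m0 d : ℕ} {C : Clause}
    (he : ErrFree p l s0 t hat (clauseFm C))
    (hd : (clauseFm C).depth ≤ d)
    (hC : t ^ (m0 + 1) ∈ Ideal.span (litP t x '' {c | c ∈ C})) :
    t ^ (s0 + Dg p l d + (m0 + 1)) *
      (t ^ Dg p l (clauseFm C).depth - hat (clauseFm C)) = 0 := by
  set y := t ^ Dg p l (clauseFm C).depth - hat (clauseFm C) with hy
  have h1 : 1 ≤ d := by
    refine le_trans ?_ hd
    unfold clauseFm Fm.orL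
    exact Nat.succ_le_succ (Nat.zero_le _)
  have h2 : ∀ c ∈ C, t ^ (s0 + Dg p l 1) * (litP t x c * y) = 0 := by
    intro c hc
    refine lit_hat H hl c y ?_
    exact he.orL (List.mem_map_of_mem hc)
  let I : Ideal 𝒜 := Ideal.torsionOf 𝒜 𝒜 (t ^ (s0 + Dg p l 1) * y)
  have h3 : Ideal.span (litP t x '' {c | c ∈ C}) ≤ I := by
    refine Ideal.span_le.mpr ?_
    rintro _ ⟨c, hc, rfl⟩
    change litP t x c ∈ I
    rw [Ideal.mem_torsionOf_iff, smul_eq_mul, ← h2 c hc]
    ring
  have h4 := h3 hC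
  rw [Ideal.mem_torsionOf_iff, smul_eq_mul] at h4
  have h5 : t ^ (s0 + Dg p l 1 + (m0 + 1)) * y = 0 := by
    rw [← h4, pow_add]; ring
  have h6 : Dg p l 1 ≤ Dg p l d := Dg_mono hl h1
  exact kill_le (by omega) h5

/-- The disjunction of the negations of the lines. -/
def pre (ρ : List Fm) : Fm := Fm.orL (ρ.map Fm.neg)

theorem depth_pre {ρ : List Fm} {d : ℕ} (h : ∀ A ∈ ρ, A.depth ≤ d) : (pre ρ).depth ≤ d + 2 := by
  unfold pre Fm.orL
  refine Nat.succ_le_succ (Finset.sup_le fun i _ => ?_)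
  have : (ρ.map Fm.neg).get i ∈ ρ.map Fm.neg := List.get_mem _ _
  obtain ⟨A, hA, hA'⟩ := List.mem_map.mp this
  rw [← hA']
  exact Nat.succ_le_succ (h A hA)

/-- the padded polynomial of `pre ρ` -/
def aP (p l : ℕ) (t : 𝒜) (hat : Fm → 𝒜) (D : ℕ) (ρ : List Fm) : 𝒜 :=
  t ^ (D - Dg p l (pre ρ).depth) * hat (pre ρ)

/-- the padded polynomial of the conjunction of the lines -/
def bP (p l : ℕ) (t : 𝒜) (hat : Fm → 𝒜) (D : ℕ) (ρ : List Fm) : 𝒜 :=
  t ^ D - aP p l t hat D ρ

theorem mem_kill (H : HatSys p l t x hat) (hl : 1 ≤ l * (p - 1)) {s0 d : ℕ} {ρ : List Fm}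
    (hd : ∀ A ∈ ρ, A.depth ≤ d) (he : ErrFree p l s0 t hat (pre ρ)) {A : Fm} (hA : A ∈ ρ) :
    t ^ s0 * (hat (.neg A) * bP p l t hat (Dg p l (d + 2)) ρ) = 0 := by
  have h1 := he.orL (List.mem_map_of_mem (f := Fm.neg) hA)
  have h2 : Dg p l (pre ρ).depth ≤ Dg p l (d + 2) := Dg_mono hl (depth_pre hd)
  have h3 : bP p l t hat (Dg p l (d + 2)) ρ =
      t ^ (Dg p l (d + 2) - Dg p l (pre ρ).depth) * (t ^ Dg p l (pre ρ).depth - hat (pre ρ)) := by
    unfold bP aP
    rw [mul_sub, ← pow_add, Nat.sub_add_cancel h2]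
  rw [h3]
  unfold pre at h1 ⊢
  linear_combination t ^ (Dg p l (d + 2) - Dg p l (Fm.orL (ρ.map Fm.neg)).depth) * h1

theorem neg_kill (H : HatSys p l t x hat) (hl : 1 ≤ l * (p - 1)) {e d : ℕ} {A : Fm}
    (hd : A.depth ≤ d) {v : 𝒜} (h : t ^ e * (hat (.neg A) * v) = 0) :
    t ^ (e + Dg p l (d + 2)) * ((t ^ Dg p l A.depth - hat A) * v) = 0 := by
  rw [H.neg] at h
  have h1 : t ^ (e + (Dg p l (A.depth + 1) - Dg p l A.depth)) *
      ((t ^ Dg p l A.depth - hat A) * v) = 0 := by
    rw [pow_add, ← h]; ring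
  have h2 : Dg p l (A.depth + 1) ≤ Dg p l (d + 2) := Dg_mono hl (by omega)
  exact kill_le (by omega) h1

theorem neg_kill' (H : HatSys p l t x hat) {e : ℕ} {A : Fm} {v : 𝒜}
    (h : t ^ e * ((t ^ Dg p l A.depth - hat A) * v) = 0) :
    t ^ e * (hat (.neg A) * v) = 0 := by
  rw [H.neg]
  linear_combination t ^ (Dg p l (A.depth + 1) - Dg p l A.depth) * h

/-- One step of the telescoping argument. -/
theorem step_kill (H : HatSys p l t x hat) (hl : 1 ≤ l * (p - 1)) {s0 d E : ℕ} {ρ : List Fm}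
    {A : Fm} (hd : ∀ B ∈ A :: ρ, B.depth ≤ d)
    (he : ErrFree p l s0 t hat (pre ρ)) (he' : ErrFree p l s0 t hat (pre (A :: ρ)))
    (hE : s0 ≤ E)
    (hA : t ^ E * ((t ^ Dg p l A.depth - hat A) * bP p l t hat (Dg p l (d + 2)) ρ) = 0) :
    t ^ (Dg p l (d + 2) + E) * (bP p l t hat (Dg p l (d + 2)) ρ -
      bP p l t hat (Dg p l (d + 2)) (A :: ρ)) = 0 := by
  set D := Dg p l (d + 2) with hD
  have hdρ : ∀ B ∈ ρ, B.depth ≤ d := fun B hB => hd B (List.mem_cons_of_mem _ hB)
  have h1 : t ^ E * (hat (pre (A :: ρ)) * bP p l t hat D ρ) = 0 := by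
    unfold pre
    refine H.orL_killed _ E _ ?_
    intro B hB
    obtain ⟨B', hB', rfl⟩ := List.mem_map.mp hB
    rcases List.mem_cons.mp hB' with rfl | h
    · exact neg_kill' H hA
    · exact kill_le hE (mem_kill H hl hdρ he h)
  have h2 : t ^ E * (hat (pre ρ) * bP p l t hat D (A :: ρ)) = 0 := by
    unfold pre
    refine H.orL_killed _ E _ ?_
    intro B hB
    obtain ⟨B', hB', rfl⟩ := List.mem_map.mp hB
    exact kill_le hE (mem_kill H hl hd he' (List.mem_cons_of_mem _ hB'))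
  have h3 : t ^ (D + E) * (bP p l t hat D ρ - bP p l t hat D (A :: ρ)) =
      t ^ (D - Dg p l (pre (A :: ρ)).depth) * (t ^ E * (hat (pre (A :: ρ)) * bP p l t hat D ρ)) -
      t ^ (D - Dg p l (pre ρ).depth) * (t ^ E * (hat (pre ρ) * bP p l t hat D (A :: ρ))) := by
    unfold bP aP
    rw [pow_add]
    ring
  rw [h3, h1, h2, mul_zero, mul_zero, sub_zero]

/-- the maximal loss of a rule in `R` -/
def sysCost (R : List Rule) : ℕ := (R.map ruleCost).sum

theorem ruleCost_le {R : List Rule} {r : Rule} (hr : r ∈ R) : ruleCost r ≤ sysCost R := by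
  unfold sysCost
  exact List.single_le_sum (by simp) _ (List.mem_map_of_mem hr)

/-- loss of one line -/
def lineCost (R : List Rule) (p m0 s0 D : ℕ) : ℕ :=
  (s0 + D) + s0 + (p + 2) * D + sysCost R * (D * (p - 1)) + (m0 + 1)

theorem tele [hp : Fact p.Prime] [CharP 𝒜 p] (H : HatSys p l t x hat)
    (hl : 1 ≤ l * (p - 1)) {R : List Rule} {F : List Clause} {m0 s0 d : ℕ}
    (hR : ∀ r ∈ R, r.Sound p)
    (hF : ∀ C ∈ F, t ^ (m0 + 1) ∈ Ideal.span (litP t x '' {c | c ∈ C}))
    {π : List Fm} (hπ : Derivation R F π) (hd : ∀ A ∈ π, A.depth ≤ d)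
    (he : ∀ A ∈ π, ErrFree p l s0 t hat A)
    (he' : ∀ ρ : List Fm, ρ <:+ π → ErrFree p l s0 t hat (pre ρ)) :
    t ^ (Dg p l (d + 2) + lineCost R p m0 s0 (Dg p l (d + 2))) *
      (t ^ Dg p l (d + 2) - bP p l t hat (Dg p l (d + 2)) π) = 0 := by
  induction hπ with
  | nil =>
    have h1 : hat (pre []) = 0 := H.orL_nil
    unfold bP aP
    rw [h1, mul_zero, sub_zero, sub_self, mul_zero]
  | @clause π C hπ hC ih =>
    have ih' := ih (fun A hA => hd A (List.mem_cons_of_mem _ hA))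
      (fun A hA => he A (List.mem_cons_of_mem _ hA))
      (fun ρ hρ => he' ρ (hρ.trans (List.suffix_cons _ _)))
    have hA : t ^ lineCost R p m0 s0 (Dg p l (d + 2)) *
        ((t ^ Dg p l (clauseFm C).depth - hat (clauseFm C)) *
          bP p l t hat (Dg p l (d + 2)) π) = 0 := by
      have h1 := clause_sound (d := d + 2) H hl (he _ List.mem_cons_self)
        ((hd _ List.mem_cons_self).trans (by omega)) (hF C hC)
      rw [← mul_assoc]
      rw [kill_le (N := lineCost R p m0 s0 (Dg p l (d + 2))) (by unfold lineCost; omega) h1,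
        zero_mul]
    have h2 := step_kill H hl hd (he' π (List.suffix_cons _ _)) (he' _ List.suffix_rfl)
      (by unfold lineCost; omega) hA
    linear_combination ih' + h2
  | @rule π r σ τ hπ hr hprem ih =>
    have ih' := ih (fun A hA => hd A (List.mem_cons_of_mem _ hA))
      (fun A hA => he A (List.mem_cons_of_mem _ hA))
      (fun ρ hρ => he' ρ (hρ.trans (List.suffix_cons _ _)))
    have hdπ : ∀ A ∈ π, A.depth ≤ d := fun A hA => hd A (List.mem_cons_of_mem _ hA)
    have hA : t ^ lineCost R p m0 s0 (Dg p l (d + 2)) *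
        ((t ^ Dg p l (r.concl.inst σ τ).depth - hat (r.concl.inst σ τ)) *
          bP p l t hat (Dg p l (d + 2)) π) = 0 := by
      have h1 := rule_sound (d := d + 2) (s0 := s0) (e0 := s0 + Dg p l (d + 2)) (σ := σ) (τ := τ)
        H hl (hR r hr)
        (fun s hs => by
          rcases List.mem_cons.mp hs with rfl | hs
          · exact (hd _ List.mem_cons_self).trans (by omega)
          · exact (hdπ _ (hprem s hs)).trans (by omega))
        (fun s hs => by
          rcases List.mem_cons.mp hs with rfl | hs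
          · exact he _ List.mem_cons_self
          · exact he _ (List.mem_cons_of_mem _ (hprem s hs)))
        (Q := bP p l t hat (Dg p l (d + 2)) π)
        (fun s hs => neg_kill H hl (hdπ _ (hprem s hs))
          (mem_kill H hl hdπ (he' π (List.suffix_cons _ _)) (hprem s hs)))
      refine kill_le ?_ h1
      unfold lineCost
      have h3 : ruleCost r * (Dg p l (d + 2) * (p - 1)) ≤
        sysCost R * (Dg p l (d + 2) * (p - 1)) := Nat.mul_le_mul_right _ (ruleCost_le hr)
      omega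
    have h2 := step_kill H hl hd (he' π (List.suffix_cons _ _)) (he' _ List.suffix_rfl)
      (by unfold lineCost; omega) hA
    linear_combination ih' + h2

/-- The constant of the main theorem of this file. -/
def refCost (R : List Rule) (m0 : ℕ) : ℕ := sysCost R + m0 + 12

/-- A refutation without errors makes a power of `t` vanish. -/
theorem core_refute [hp : Fact p.Prime] [CharP 𝒜 p] (H : HatSys p l t x hat)
    (hl : 1 ≤ l) {R : List Rule} {F : List Clause} {m0 s0 d : ℕ}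
    (hR : ∀ r ∈ R, r.Sound p)
    (hF : ∀ C ∈ F, t ^ (m0 + 1) ∈ Ideal.span (litP t x '' {c | c ∈ C}))
    {π : List Fm} (hπ : Refutation R F π) (hd : ∀ A ∈ π, A.depth ≤ d)
    (he : ∀ A ∈ π, ErrFree p l s0 t hat A)
    (he' : ∀ ρ : List Fm, ρ <:+ π → ErrFree p l s0 t hat (pre ρ)) :
    t ^ (refCost R m0 * (s0 + p * Dg p l (d + 2))) = 0 := by
  have hp2 := hp.out.two_le
  have hl' : 1 ≤ l * (p - 1) := Nat.one_le_iff_ne_zero.mpr (by
    have : 1 ≤ p - 1 := by omega
    positivity)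
  have h1 := tele H hl' hR hF hπ.1 hd he he'
  have h2 := mem_kill H hl' hd (he' π List.suffix_rfl) hπ.2
  have h3 := neg_kill H hl' (hd _ hπ.2) h2
  have h4 : hat (Fm.orL []) = 0 := H.orL_nil
  rw [h4, sub_zero, ← mul_assoc, ← pow_add] at h3
  set D := Dg p l (d + 2) with hD
  have hD1 : 1 ≤ D := Dg_pos hl' _
  have hDo : Dg p l (Fm.orL []).depth ≤ D := Dg_mono hl' ((hd _ hπ.2).trans (by omega))
  set L := lineCost R p m0 s0 D with hL
  have h5 : t ^ ((D + L) + (s0 + D + Dg p l (Fm.orL []).depth)) * t ^ D = 0 := by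
    have e1 : t ^ ((D + L) + (s0 + D + Dg p l (Fm.orL []).depth)) * t ^ D =
        t ^ (s0 + D + Dg p l (Fm.orL []).depth) *
          (t ^ (D + L) * (t ^ D - bP p l t hat D π)) +
        t ^ (D + L) * (t ^ (s0 + D + Dg p l (Fm.orL []).depth) * bP p l t hat D π) := by
      rw [pow_add t (D + L)]
      ring
    rw [e1, h1, h3, mul_zero, mul_zero, add_zero]
  rw [← pow_add] at h5
  have h6 : (D + L) + (s0 + D + Dg p l (Fm.orL []).depth) + D ≤
      refCost R m0 * (s0 + p * D) := by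
    have e1 : (D + L) + (s0 + D + Dg p l (Fm.orL []).depth) + D ≤
        3 * s0 + (p + 7) * D + sysCost R * (D * (p - 1)) + (m0 + 1) := by
      rw [hL]; unfold lineCost
      nlinarith
    refine e1.trans ?_
    have e2 : (p + 7) * D ≤ 8 * (p * D) := by nlinarith
    have e3 : sysCost R * (D * (p - 1)) ≤ sysCost R * (p * D) := by
      refine Nat.mul_le_mul_left _ ?_
      rw [mul_comm p D]
      exact Nat.mul_le_mul_left _ (Nat.sub_le _ _)
    have e4 : m0 + 1 ≤ (m0 + 1) * (p * D) := Nat.le_mul_of_pos_right _ (by positivity)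
    unfold refCost
    nlinarith [Nat.zero_le (sysCost R * s0), Nat.zero_le (m0 * s0)]
  have h7 := kill_le (v := (1 : 𝒜)) h6 (by rw [mul_one]; exact h5)
  rwa [mul_one] at h7

end

end Pool.Agent.Helper80.FW
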