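import Pool.Agent.Helper80.FW.Final
import Pool.Agent.Frege.Window

/-!
The refutation theorem for an element `P` of a module killed by all errors.
-/

namespace Pool.Agent.Helper80.FW

open Pool.Agent.Helper21.AC0p
open scoped BigOperators Classical

section
variable {p l : ℕ} {𝒜 ℬ : Type*} [CommRing 𝒜] [CommRing ℬ] {t : 𝒜} {x : ℕ → 𝒜} {hat : Fm → 𝒜}

theorem HatSys.map (H : HatSys p l t x hat) (φ : 𝒜 →+* ℬ) :
    HatSys p l (φ t) (fun i => φ (x i)) (fun A => φ (hat A)) where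
  var i := by rw [H.var]
  idem A := by rw [← map_mul, H.idem, map_mul, map_pow]
  neg A := by rw [H.neg, map_mul, map_sub, map_pow, map_pow]
  mod m f := by
    rw [H.mod, map_mul, map_sub, map_pow, map_pow, map_pow, map_sum]
    simp only [map_mul, map_pow]
  or m f := by
    have h1 := Ideal.mem_map_of_mem φ (H.or m f)
    rw [Ideal.map_span] at h1
    convert h1 using 2
    ext y
    simp only [Set.mem_range, Set.mem_image, exists_exists_eq_and]

end

section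
variable {p l : ℕ} {K 𝒞 𝓜 : Type*} [Field K] [CommRing 𝒞] [Algebra K 𝒞] [AddCommGroup 𝓜]
  [Module 𝒞 𝓜] {t : 𝒞} {x : ℕ → 𝒞} {hat : Fm → 𝒞}

/-- The errors of the disjunctions in `A` kill `P` (with slack `s0`). -/
def ErrFreeM (p l s0 : ℕ) (t : 𝒞) (hat : Fm → 𝒞) (P : 𝓜) (A : Fm) : Prop :=
  ∀ (m : ℕ) (f : Fin m → Fm), Fm.IsSub (.or m f) A → ∀ i,
    (t ^ s0 * (hat (f i) * (t ^ Dg p l (Fm.or m f).depth - hat (.or m f)))) • P = 0

theorem mk_torsionOf_eq_zero {P : 𝓜} {a : 𝒞} :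
    Ideal.Quotient.mk (Ideal.torsionOf 𝒞 𝓜 P) a = 0 ↔ a • P = 0 := by
  rw [Ideal.Quotient.eq_zero_iff_mem, Ideal.mem_torsionOf_iff]

theorem ErrFreeM.quot {s0 : ℕ} {P : 𝓜} {A : Fm} (h : ErrFreeM p l s0 t hat P A) :
    ErrFree p l s0 (Ideal.Quotient.mk (Ideal.torsionOf 𝒞 𝓜 P) t)
      (fun B => Ideal.Quotient.mk (Ideal.torsionOf 𝒞 𝓜 P) (hat B)) A := by
  intro m f hm i
  have h1 := mk_torsionOf_eq_zero.mpr (h m f hm i)
  rw [← h1, map_mul, map_mul, map_sub, map_pow, map_pow]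

/-- A refutation without errors on `P` makes a power of `t` kill `P`. -/
theorem module_refute [hp : Fact p.Prime] [CharP K p] (H : HatSys p l t x hat)
    (hl : 1 ≤ l) {R : List Rule} {F : List Clause} {m0 s0 d : ℕ}
    (hR : ∀ r ∈ R, r.Sound p)
    (hF : ∀ C ∈ F, t ^ (m0 + 1) ∈ Ideal.span (litP t x '' {c | c ∈ C}))
    {π : List Fm} (hπ : Refutation R F π) (hd : ∀ A ∈ π, A.depth ≤ d) (P : 𝓜)
    (he : ∀ A ∈ π, ErrFreeM p l s0 t hat P A)
    (he' : ∀ ρ : List Fm, ρ <:+ π → ErrFreeM p l s0 t hat P (pre ρ)) :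
    t ^ (refCost R m0 * (s0 + p * Dg p l (d + 2))) • P = 0 := by
  by_cases hP : P = 0
  · rw [hP, smul_zero]
  let I := Ideal.torsionOf 𝒞 𝓜 P
  let φ := Ideal.Quotient.mk I
  have hI : I ≠ ⊤ := by
    intro h
    apply hP
    have h1 : (1 : 𝒞) ∈ I := by rw [h]; exact Submodule.mem_top
    rw [Ideal.mem_torsionOf_iff, one_smul] at h1
    exact h1
  have : Nontrivial (𝒞 ⧸ I) := Ideal.Quotient.nontrivial_iff.mpr hI
  have : CharP (𝒞 ⧸ I) p :=
    charP_of_injective_algebraMap (algebraMap K (𝒞 ⧸ I)).injective p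
  have hF' : ∀ C ∈ F, φ t ^ (m0 + 1) ∈
      Ideal.span (litP (φ t) (fun i => φ (x i)) '' {c | c ∈ C}) := by
    intro C hC
    have h1 := Ideal.mem_map_of_mem φ (hF C hC)
    rw [Ideal.map_span, map_pow, ← Set.image_comp] at h1
    have h2 : litP (φ t) (fun i => φ (x i)) = φ ∘ litP t x := by
      funext c
      unfold litP
      simp only [Function.comp]
      split_ifs
      · rfl
      · rw [map_sub]
    rw [h2]
    exact h1
  have h1 := core_refute (H.map φ) hl hR hF' hπ hd (fun A hA => (he A hA).quot)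
    (fun ρ hρ => (he' ρ hρ).quot)
  rw [← map_pow] at h1
  exact mk_torsionOf_eq_zero.mp h1

end

section
variable {F : List Clause} {m0 : ℕ} {K 𝒞 𝓜 : Type} [Field K] [CommRing 𝒞] [Algebra K 𝒞]
    [AddCommGroup 𝓜] [Module K 𝓜] [Module 𝒞 𝓜] [IsScalarTower K 𝒞 𝓜]

open Pool.Agent.Frege in
theorem win_clause (W : Win F m0 K 𝒞 𝓜) {C : Clause} (hC : C ∈ F) :
    W.t ^ (m0 + 1) ∈ Ideal.span (litP W.t W.x '' {c | c ∈ C}) := by
  obtain ⟨m, hm, a, -, h⟩ := W.clause C hC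
  have h1 : W.t ^ (m + 1) ∈ Ideal.span (litP W.t W.x '' {c | c ∈ C}) := by
    rw [h]
    refine list_sum_mem ?_
    intro y hy
    obtain ⟨c, hc, rfl⟩ := List.mem_map.mp hy
    refine Ideal.mul_mem_left _ _ (Ideal.subset_span ⟨c, hc, ?_⟩)
    unfold litP
    rfl
  have h2 : W.t ^ (m0 + 1) = W.t ^ (m0 - m) * W.t ^ (m + 1) := by
    rw [← pow_add]; congr 1; omega
  rw [h2]
  exact Ideal.mul_mem_left _ _ h1

end

end Pool.Agent.Helper80.FW
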