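import Pool.Agent.Helper80.FW.Core

/-!
Soundness of schematic rules with slack.
-/

namespace Pool.Agent.Helper80.FW

open Pool.Agent.Helper21.AC0p
open scoped BigOperators Classical

section
variable (p l : ℕ) {𝒜 : Type*} [CommRing 𝒜] (t : 𝒜) (hat : Fm → 𝒜)

/-- `A` has the truth value `b` on `v` -/
def Eig (v : 𝒜) (A : Fm) (b : Bool) : Prop :=
  hat A * v = if b then t ^ Dg p l A.depth * v else 0

/-- sum of the padded polynomials of the formulas of a list -/
def SL (Dt : ℕ) (L : List Fm) : 𝒜 := (L.map fun B => t ^ (Dt - Dg p l B.depth) * hat B).sum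

variable (Dt : ℕ) (σ : ℕ → Fm) (τ : ℕ → List Fm)

mutual
/-- all relevant elements have eigenvalues on `v` -/
def okF (v : 𝒜) : FSch → Prop
  | .mv i => ∃ b, Eig p l t hat v (σ i) b
  | .neg s => okF v s
  | .or ls => (∃ b, Eig p l t hat v (Fm.orL (ls.inst σ τ)) b) ∧ okL v ls
  | .mod ls => (∃ b, Eig p l t hat v (Fm.modL (ls.inst σ τ)) b) ∧ okL v ls
def okL (v : 𝒜) : LSch → Prop
  | .nil => True
  | .cons s ls => okF v s ∧ okL v ls
  | .app j ls => (∃ g : ZMod p, SL p l t hat Dt (τ j) * v = (g.val : 𝒜) * (t ^ Dt * v)) ∧ okL v ls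
end

mutual
/-- number of relevant elements -/
def cntF : FSch → ℕ
  | .mv _ => 1
  | .neg s => cntF s
  | .or ls => cntL ls + 1
  | .mod ls => cntL ls + 1
def cntL : LSch → ℕ
  | .nil => 0
  | .cons s ls => cntF s + cntL ls
  | .app _ ls => cntL ls + 1
end

/-- truth values of the formula metavariables -/
noncomputable def aV (v : 𝒜) (i : ℕ) : Bool := decide (Eig p l t hat v (σ i) true)

/-- `true` if all items are killed -/
noncomputable def bV (f : ℕ) (v : 𝒜) (j : ℕ) : Bool :=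
  decide (∀ B ∈ τ j, t ^ f * (hat B * v) = 0)

/-- the number of true items modulo `p` -/
noncomputable def gV (v : 𝒜) (j : ℕ) : ℕ :=
  if h : ∃ g : ZMod p, SL p l t hat Dt (τ j) * v = (g.val : 𝒜) * (t ^ Dt * v) then
    (Classical.choose h).val else 0

end

section
variable {p l : ℕ} {𝒜 : Type*} [CommRing 𝒜] {t : 𝒜} {x : ℕ → 𝒜} {hat : Fm → 𝒜}

theorem alive_le {M N : ℕ} (h : M ≤ N) {v : 𝒜} (hv : t ^ N * v ≠ 0) : t ^ M * v ≠ 0 := by
  intro h0
  apply hv
  rw [← Nat.sub_add_cancel h, pow_add, mul_assoc, h0, mul_zero]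

theorem kill_le {M N : ℕ} (h : M ≤ N) {v : 𝒜} (hv : t ^ M * v = 0) : t ^ N * v = 0 := by
  rw [← Nat.sub_add_cancel h, pow_add, mul_assoc, hv, mul_zero]

theorem cancel_nat [hp : Fact p.Prime] [CharP 𝒜 p] {n : ℕ} (hn : ¬ p ∣ n) {y : 𝒜}
    (h : (n : 𝒜) * y = 0) : y = 0 := by
  have h1 : Nat.Coprime n p := (Nat.Coprime.symm ((Nat.Prime.coprime_iff_not_dvd hp.out).mpr hn))
  obtain ⟨m, hm⟩ := Nat.exists_mul_mod_eq_one_of_coprime h1 hp.out.one_lt
  have h2 : ((n * m : ℕ) : 𝒜) = 1 := by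
    rw [CharP.cast_eq_mod 𝒜 p (n * m), hm.2, Nat.cast_one]
  calc y = ((n * m : ℕ) : 𝒜) * y := by rw [h2, one_mul]
    _ = (m : 𝒜) * ((n : 𝒜) * y) := by push_cast; ring
    _ = 0 := by rw [h, mul_zero]

theorem cast_pow_sub_one [hp : Fact p.Prime] [CharP 𝒜 p] {n : ℕ} (hn : ¬ p ∣ n) :
    (n : 𝒜) ^ (p - 1) = 1 := by
  have h1 : ((n : ZMod p)) ≠ 0 := by
    rwa [Ne, ZMod.natCast_eq_zero_iff]
  have h2 := ZMod.pow_card_sub_one_eq_one h1
  have h3 := congrArg (ZMod.castHom (dvd_refl p) 𝒜) h2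
  rw [map_pow, map_natCast, map_one] at h3
  exact h3

theorem Eig.mul {v : 𝒜} {A : Fm} {b : Bool} (h : Eig p l t hat v A b) (a : 𝒜) :
    Eig p l t hat (a * v) A b := by
  unfold Eig at *
  rw [show hat A * (a * v) = a * (hat A * v) by ring, h]
  cases b
  · simp
  · simp only [if_true]; ring

theorem SL_append (Dt : ℕ) (L L' : List Fm) :
    SL p l t hat Dt (L ++ L') = SL p l t hat Dt L + SL p l t hat Dt L' := by
  simp [SL]

theorem SL_cons (Dt : ℕ) (A : Fm) (L : List Fm) :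
    SL p l t hat Dt (A :: L) = t ^ (Dt - Dg p l A.depth) * hat A + SL p l t hat Dt L := by
  simp [SL]

theorem SL_nil (Dt : ℕ) : SL p l t hat Dt [] = 0 := by simp [SL]

theorem sum_get' {α : Type*} (L : List α) (g : α → 𝒜) : ∑ i, g (L.get i) = (L.map g).sum := by
  rw [← List.sum_ofFn]
  congr 1
  conv_rhs => rw [← List.ofFn_get L, List.map_ofFn]
  rfl

/-- a sum of padded idempotents takes values in the prime field -/
theorem SL_pow [hp : Fact p.Prime] [CharP 𝒜 p] (H : HatSys p l t x hat) (hl : 1 ≤ l * (p - 1))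
    {d : ℕ} (L : List Fm) (hL : ∀ B ∈ L, B.depth ≤ d) :
    (SL p l t hat (Dg p l d) L) ^ p =
      t ^ (Dg p l d * (p - 1)) * SL p l t hat (Dg p l d) L := by
  induction L with
  | nil => rw [SL_nil, zero_pow hp.out.ne_zero, mul_zero]
  | cons A L ih =>
    rw [SL_cons, add_pow_char, ih fun B hB => hL B (List.mem_cons_of_mem _ hB), mul_add]
    congr 1
    refine pow_char_of_idem p ?_
    have h1 : Dg p l A.depth ≤ Dg p l d := Dg_mono hl (hL A List.mem_cons_self)
    calc t ^ (Dg p l d - Dg p l A.depth) * hat A * (t ^ (Dg p l d - Dg p l A.depth) * hat A)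
        = t ^ (Dg p l d - Dg p l A.depth) * t ^ (Dg p l d - Dg p l A.depth) *
          (hat A * hat A) := by ring
      _ = (t ^ (Dg p l d - Dg p l A.depth) * t ^ Dg p l A.depth) *
          (t ^ (Dg p l d - Dg p l A.depth) * hat A) := by rw [H.idem]; ring
      _ = t ^ Dg p l d * (t ^ (Dg p l d - Dg p l A.depth) * hat A) := by
          rw [← pow_add, Nat.sub_add_cancel h1]

mutual
theorem okF_mul {Dt : ℕ} {σ : ℕ → Fm} {τ : ℕ → List Fm} {v : 𝒜} (a : 𝒜) :
    (s : FSch) → okF p l t hat Dt σ τ v s → okF p l t hat Dt σ τ (a * v) s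
  | .mv i, h => by
      unfold okF at *
      obtain ⟨b, hb⟩ := h
      exact ⟨b, hb.mul a⟩
  | .neg s, h => by
      unfold okF at *
      exact okF_mul a s h
  | .or ls, h => by
      unfold okF at *
      obtain ⟨⟨b, hb⟩, h2⟩ := h
      exact ⟨⟨b, hb.mul a⟩, okL_mul a ls h2⟩
  | .mod ls, h => by
      unfold okF at *
      obtain ⟨⟨b, hb⟩, h2⟩ := h
      exact ⟨⟨b, hb.mul a⟩, okL_mul a ls h2⟩
theorem okL_mul {Dt : ℕ} {σ : ℕ → Fm} {τ : ℕ → List Fm} {v : 𝒜} (a : 𝒜) :
    (ls : LSch) → okL p l t hat Dt σ τ v ls → okL p l t hat Dt σ τ (a * v) ls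
  | .nil, _ => by unfold okL; trivial
  | .cons s ls, h => by
      unfold okL at *
      exact ⟨okF_mul a s h.1, okL_mul a ls h.2⟩
  | .app j ls, h => by
      unfold okL at *
      obtain ⟨⟨g, hg⟩, h2⟩ := h
      refine ⟨⟨g, ?_⟩, okL_mul a ls h2⟩
      linear_combination a * hg
end

/-- a common eigenvector for a further idempotent -/
theorem split_hat [hp : Fact p.Prime] [CharP 𝒜 p] (H : HatSys p l t x hat)
    (hl : 1 ≤ l * (p - 1)) {d M : ℕ} (hM : 2 * Dg p l d ≤ M) {A : Fm} (hA : A.depth ≤ d) {v : 𝒜}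
    (hv : t ^ (M + Dg p l d * (p - 1)) * v ≠ 0) :
    ∃ a : 𝒜, (∃ b, Eig p l t hat (a * v) A b) ∧ t ^ M * (a * v) ≠ 0 := by
  have h1 : Dg p l A.depth ≤ Dg p l d := Dg_mono hl hA
  have h2 : Dg p l A.depth * (p - 1) ≤ Dg p l d * (p - 1) := Nat.mul_le_mul_right _ h1
  obtain ⟨g, a, hg, ha⟩ := split_one p (pow_char_of_idem p (H.idem A))
    (h2.trans (Nat.le_add_left _ M)) hv
  have ha' : t ^ M * (a * v) ≠ 0 := alive_le (by omega) ha
  refine ⟨a, ?_, ha'⟩
  have h3 : ((g.val : 𝒜) * g.val - g.val) * (t ^ (2 * Dg p l A.depth) * (a * v)) = 0 := by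
    have h4 : hat A * (hat A * (a * v)) = t ^ Dg p l A.depth * (hat A * (a * v)) := by
      rw [← mul_assoc, H.idem, mul_assoc]
    rw [hg] at h4
    have h5 : hat A * ((g.val : 𝒜) * (t ^ Dg p l A.depth * (a * v))) =
        (g.val : 𝒜) * (t ^ Dg p l A.depth * (hat A * (a * v))) := by ring
    rw [h5, hg] at h4
    rw [two_mul, pow_add]
    linear_combination h4
  have h6 : g = 0 ∨ g = 1 := by
    by_contra hcon
    push Not at hcon
    have h7 : g * g - g ≠ 0 := by
      rw [show g * g - g = g * (g - 1) by ring]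
      exact mul_ne_zero hcon.1 (sub_ne_zero.mpr hcon.2)
    have h8 : ((g * g - g).val : 𝒜) = (g.val : 𝒜) * g.val - g.val := by
      have hφ : ∀ g : ZMod p, (g.val : 𝒜) = ZMod.castHom (dvd_refl p) 𝒜 g := by
        intro g
        rw [ZMod.castHom_apply, ZMod.natCast_val]
      rw [hφ, hφ, map_sub, map_mul]
    rw [← h8] at h3
    have h9 : ¬ p ∣ (g * g - g).val := by
      intro hd
      apply h7
      rw [← ZMod.natCast_zmod_val (g * g - g)]
      exact (ZMod.natCast_eq_zero_iff _ _).mpr hd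
    exact alive_le (by omega) ha' (cancel_nat h9 h3)
  rcases h6 with rfl | rfl
  · refine ⟨false, ?_⟩
    unfold Eig
    rw [hg]
    simp
  · refine ⟨true, ?_⟩
    unfold Eig
    rw [hg]
    have : (1 : ZMod p).val = 1 := ZMod.val_one p
    rw [this]
    simp

mutual
theorem splitF [hp : Fact p.Prime] [CharP 𝒜 p] (H : HatSys p l t x hat)
    (hl : 1 ≤ l * (p - 1)) {d : ℕ} {σ : ℕ → Fm} {τ : ℕ → List Fm} :
    (s : FSch) → ∀ M, 2 * Dg p l d ≤ M → ∀ v : 𝒜, (s.inst σ τ).depth ≤ d →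
      t ^ (M + cntF s * (Dg p l d * (p - 1))) * v ≠ 0 →
      ∃ a : 𝒜, okF p l t hat (Dg p l d) σ τ (a * v) s ∧ t ^ M * (a * v) ≠ 0
  | .mv i, M, hM, v, hd, hv => by
      unfold cntF at hv
      rw [one_mul] at hv
      obtain ⟨a, h1, h2⟩ := split_hat H hl hM (A := σ i) hd hv
      refine ⟨a, ?_, h2⟩
      unfold okF
      exact h1
  | .neg s, M, hM, v, hd, hv => by
      unfold cntF at hv
      obtain ⟨a, h1, h2⟩ := splitF H hl s M hM v (le_trans (Nat.le_succ _) hd) hv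
      refine ⟨a, ?_, h2⟩
      unfold okF
      exact h1
  | .or ls, M, hM, v, hd, hv => by
      unfold cntF at hv
      have hv' : t ^ ((M + Dg p l d * (p - 1)) + cntL ls * (Dg p l d * (p - 1))) * v ≠ 0 := by
        convert hv using 3
        ring
      have hd' : ∀ B ∈ ls.inst σ τ, B.depth ≤ d := fun B hB =>
        (Nat.le_succ _).trans ((depth_orL_mem hB).trans hd)
      obtain ⟨a, h1, h2⟩ := splitL H hl ls (M + Dg p l d * (p - 1)) (by omega) v hd' hv'
      obtain ⟨a', h3, h4⟩ := split_hat H hl hM (A := Fm.orL (ls.inst σ τ)) hd h2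
      refine ⟨a' * a, ?_, by rwa [mul_assoc]⟩
      unfold okF
      rw [mul_assoc]
      exact ⟨h3, okL_mul a' ls h1⟩
  | .mod ls, M, hM, v, hd, hv => by
      unfold cntF at hv
      have hv' : t ^ ((M + Dg p l d * (p - 1)) + cntL ls * (Dg p l d * (p - 1))) * v ≠ 0 := by
        convert hv using 3
        ring
      have hd' : ∀ B ∈ ls.inst σ τ, B.depth ≤ d := fun B hB =>
        (Nat.le_succ _).trans ((depth_modL_mem hB).trans hd)
      obtain ⟨a, h1, h2⟩ := splitL H hl ls (M + Dg p l d * (p - 1)) (by omega) v hd' hv'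
      obtain ⟨a', h3, h4⟩ := split_hat H hl hM (A := Fm.modL (ls.inst σ τ)) hd h2
      refine ⟨a' * a, ?_, by rwa [mul_assoc]⟩
      unfold okF
      rw [mul_assoc]
      exact ⟨h3, okL_mul a' ls h1⟩
theorem splitL [hp : Fact p.Prime] [CharP 𝒜 p] (H : HatSys p l t x hat)
    (hl : 1 ≤ l * (p - 1)) {d : ℕ} {σ : ℕ → Fm} {τ : ℕ → List Fm} :
    (ls : LSch) → ∀ M, 2 * Dg p l d ≤ M → ∀ v : 𝒜, (∀ B ∈ ls.inst σ τ, B.depth ≤ d) →
      t ^ (M + cntL ls * (Dg p l d * (p - 1))) * v ≠ 0 →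
      ∃ a : 𝒜, okL p l t hat (Dg p l d) σ τ (a * v) ls ∧ t ^ M * (a * v) ≠ 0
  | .nil, M, hM, v, hd, hv => by
      unfold cntL at hv
      refine ⟨1, ?_, ?_⟩
      · unfold okL; trivial
      · rw [one_mul]; simpa using hv
  | .cons s ls, M, hM, v, hd, hv => by
      unfold cntL at hv
      have hv' : t ^ ((M + cntL ls * (Dg p l d * (p - 1))) + cntF s * (Dg p l d * (p - 1))) *
          v ≠ 0 := by
        convert hv using 3
        ring
      have hs : (s.inst σ τ).depth ≤ d := hd _ (by rw [LSch.inst]; exact List.mem_cons_self)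
      have hls : ∀ B ∈ ls.inst σ τ, B.depth ≤ d := fun B hB =>
        hd B (by rw [LSch.inst]; exact List.mem_cons_of_mem _ hB)
      obtain ⟨a, h1, h2⟩ := splitF H hl s (M + cntL ls * (Dg p l d * (p - 1)))
        (by omega) v hs hv'
      obtain ⟨a', h3, h4⟩ := splitL H hl ls M hM (a * v) hls h2
      refine ⟨a' * a, ?_, by rwa [mul_assoc]⟩
      unfold okL
      rw [mul_assoc]
      exact ⟨okF_mul a' s h1, h3⟩
  | .app j ls, M, hM, v, hd, hv => by
      unfold cntL at hv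
      have hv' : t ^ ((M + cntL ls * (Dg p l d * (p - 1))) + Dg p l d * (p - 1)) *
          v ≠ 0 := by
        convert hv using 3
        ring
      have hj : ∀ B ∈ τ j, B.depth ≤ d := fun B hB =>
        hd B (by rw [LSch.inst]; exact List.mem_append_left _ hB)
      have hls : ∀ B ∈ ls.inst σ τ, B.depth ≤ d := fun B hB =>
        hd B (by rw [LSch.inst]; exact List.mem_append_right _ hB)
      obtain ⟨g, a, h1, h2⟩ := split_one p (SL_pow H hl (τ j) hj)
        (Nat.le_add_left _ (M + cntL ls * (Dg p l d * (p - 1)))) hv'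
      rw [Nat.add_sub_cancel] at h2
      obtain ⟨a', h3, h4⟩ := splitL H hl ls M hM (a * v) hls h2
      refine ⟨a' * a, ?_, by rwa [mul_assoc]⟩
      unfold okL
      rw [mul_assoc]
      refine ⟨⟨g, ?_⟩, h3⟩
      linear_combination a' * h1
end

end

end Pool.Agent.Helper80.FW
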