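import Pool.Agent.Helper80.FW.Sound

/-!
Truth values of instances of schemes on common eigenvectors, and soundness of rules with slack.
-/

namespace Pool.Agent.Helper80.FW

open Pool.Agent.Helper21.AC0p
open scoped BigOperators Classical

section
variable {p l : ℕ} {𝒜 : Type*} [CommRing 𝒜] {t : 𝒜} {x : ℕ → 𝒜} {hat : Fm → 𝒜}

theorem isSub_orL' {L : List Fm} {B : Fm} (h : B ∈ L) : Fm.IsSub B (Fm.orL L) := by
  obtain ⟨i, rfl⟩ := List.get_of_mem h
  exact Fm.IsSub.or i Fm.IsSub.refl

theorem isSub_modL' {L : List Fm} {B : Fm} (h : B ∈ L) : Fm.IsSub B (Fm.modL L) := by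
  obtain ⟨i, rfl⟩ := List.get_of_mem h
  exact Fm.IsSub.mod i Fm.IsSub.refl

theorem SL_killed (Dt f : ℕ) (L : List Fm) (v : 𝒜) (h : ∀ B ∈ L, t ^ f * (hat B * v) = 0) :
    t ^ f * (SL p l t hat Dt L * v) = 0 := by
  induction L with
  | nil => rw [SL_nil, zero_mul, mul_zero]
  | cons A L ih =>
    rw [SL_cons, add_mul, mul_add, ih fun B hB => h B (List.mem_cons_of_mem _ hB), add_zero]
    rw [show t ^ f * (t ^ (Dt - Dg p l A.depth) * hat A * v) =
      t ^ (Dt - Dg p l A.depth) * (t ^ f * (hat A * v)) by ring,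
      h A List.mem_cons_self, mul_zero]

theorem gV_zero [hp : Fact p.Prime] [CharP 𝒜 p] {Dt f : ℕ} {τ : ℕ → List Fm} {v : 𝒜}
    (hv : t ^ (f + Dt) * v ≠ 0) (j : ℕ) (hj : bV t hat τ f v j = true) :
    gV p l t hat Dt τ v j = 0 := by
  unfold gV
  split_ifs with h
  · have hs := Classical.choose_spec h
    set g := Classical.choose h with hg
    unfold bV at hj
    rw [decide_eq_true_eq] at hj
    by_contra hne
    have h1 := SL_killed (p := p) (l := l) Dt f (τ j) v hj
    rw [hs] at h1
    have h2 : (g.val : 𝒜) * (t ^ (f + Dt) * v) = 0 := by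
      rw [← h1, pow_add]; ring
    have h3 : ¬ p ∣ g.val := by
      intro hd
      exact hne (Nat.eq_zero_of_dvd_of_lt hd (ZMod.val_lt g))
    exact hv (cancel_nat h3 h2)
  · rfl

theorem HatSys.modL (H : HatSys p l t x hat) (L : List Fm) :
    ∃ k, (Fm.modL L).depth = k + 1 ∧ (∀ B ∈ L, B.depth ≤ k) ∧
      hat (Fm.modL L) = t ^ ((l - 1) * (p - 1) * Dg p l k) *
        (t ^ ((p - 1) * Dg p l k) - (SL p l t hat (Dg p l k) L) ^ (p - 1)) := by
  refine ⟨Finset.univ.sup fun i => (L.get i).depth, rfl, ?_, ?_⟩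
  · intro B hB
    obtain ⟨i, rfl⟩ := List.get_of_mem hB
    exact Finset.le_sup (f := fun i => (L.get i).depth) (Finset.mem_univ i)
  · have h1 := H.mod L.length L.get
    unfold Fm.modL
    rw [h1]
    unfold SL
    rw [← sum_get' L (fun B => t ^ (Dg p l (Finset.univ.sup fun i => (L.get i).depth) -
      Dg p l B.depth) * hat B)]

theorem SL_pad {D D' : ℕ} (h : D ≤ D') (L : List Fm) (hL : ∀ B ∈ L, Dg p l B.depth ≤ D) :
    SL p l t hat D' L = t ^ (D' - D) * SL p l t hat D L := by
  induction L with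
  | nil => rw [SL_nil, SL_nil, mul_zero]
  | cons A L ih =>
    rw [SL_cons, SL_cons, ih fun B hB => hL B (List.mem_cons_of_mem _ hB), mul_add]
    congr 1
    have h1 := hL A List.mem_cons_self
    rw [← mul_assoc, ← pow_add]
    congr 2
    omega

theorem mod_val [hp : Fact p.Prime] [CharP 𝒜 p] (H : HatSys p l t x hat)
    (hl : 1 ≤ l * (p - 1)) {d : ℕ} {L : List Fm} (hd : (Fm.modL L).depth ≤ d) {v : 𝒜} {N c : ℕ}
    (hN : p * Dg p l d ≤ N) (hv : t ^ N * v ≠ 0)
    (hS : SL p l t hat (Dg p l d) L * v = (c : 𝒜) * (t ^ Dg p l d * v)) {b : Bool}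
    (hb : Eig p l t hat v (Fm.modL L) b) : b = decide (p ∣ c) := by
  obtain ⟨k, hk, hB, hhat⟩ := H.modL L
  have hl1 : 1 ≤ l := by
    rcases Nat.eq_zero_or_pos l with h | h
    · subst h; omega
    · exact h
  have hpp : p - 1 + 1 = p := Nat.sub_add_cancel hp.out.one_lt.le
  set T := Dg p l d with hT
  set K := Dg p l k with hK
  have hKT : K ≤ T := Dg_mono hl (by omega)
  have hMd : Dg p l (Fm.modL L).depth = l * (p - 1) * K := by rw [hk, Dg_succ]
  have hMT : l * (p - 1) * K ≤ T := by rw [← hMd]; exact Dg_mono hl hd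
  have hpad : SL p l t hat T L = t ^ (T - K) * SL p l t hat K L :=
    SL_pad hKT L fun B hB' => Dg_mono hl (hB B hB')
  have hpow : ∀ n, (SL p l t hat T L) ^ n * v = (c : 𝒜) ^ n * (t ^ (T * n) * v) := by
    intro n
    induction n with
    | zero => simp
    | succ n ih =>
      rw [pow_succ, mul_assoc, hS, show SL p l t hat T L ^ n * ((c : 𝒜) * (t ^ T * v)) =
        (c : 𝒜) * t ^ T * (SL p l t hat T L ^ n * v) by ring, ih, pow_succ, mul_add, pow_add]
      ring
  have key : t ^ ((T - K) * (p - 1)) * (hat (Fm.modL L) * v) =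
      (1 - (c : 𝒜) ^ (p - 1)) * (t ^ ((l - 1) * (p - 1) * K + T * (p - 1)) * v) := by
    have h1 : t ^ ((T - K) * (p - 1)) * (SL p l t hat K L) ^ (p - 1) =
        (SL p l t hat T L) ^ (p - 1) := by
      rw [hpad, mul_pow, ← pow_mul]
    have h2 : t ^ ((T - K) * (p - 1)) * t ^ ((p - 1) * K) = t ^ (T * (p - 1)) := by
      rw [← pow_add]
      congr 1
      rw [mul_comm (p - 1) K, ← Nat.add_mul, Nat.sub_add_cancel hKT]
    calc t ^ ((T - K) * (p - 1)) * (hat (Fm.modL L) * v)
        = t ^ ((l - 1) * (p - 1) * K) * ((t ^ ((T - K) * (p - 1)) * t ^ ((p - 1) * K)) * v -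
          (t ^ ((T - K) * (p - 1)) * (SL p l t hat K L) ^ (p - 1)) * v) := by
          rw [hhat]; ring
      _ = _ := by
          rw [h1, h2, hpow, pow_add]
          ring
  have hX : (l - 1) * (p - 1) * K + T * (p - 1) ≤ N := by
    have h3 : (l - 1) * (p - 1) * K ≤ l * (p - 1) * K :=
      Nat.mul_le_mul_right _ (Nat.mul_le_mul_right _ (Nat.sub_le _ _))
    have h4 : T + T * (p - 1) = p * T := by
      conv_rhs => rw [← hpp]
      ring
    omega
  have hX' : (T - K) * (p - 1) + l * (p - 1) * K ≤ N := by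
    have h3 : (T - K) * (p - 1) + K * (p - 1) = T * (p - 1) := by
      rw [← Nat.add_mul, Nat.sub_add_cancel hKT]
    have h4 : T + T * (p - 1) = p * T := by
      conv_rhs => rw [← hpp]
      ring
    have h5 : 0 ≤ K * (p - 1) := Nat.zero_le _
    omega
  unfold Eig at hb
  by_cases hc : p ∣ c
  · have h0 : (c : 𝒜) = 0 := (CharP.cast_eq_zero_iff 𝒜 p c).mpr hc
    rw [h0, zero_pow (Nat.sub_pos_of_lt hp.out.one_lt).ne', sub_zero, one_mul] at key
    cases b
    · exfalso
      rw [hb] at key
      simp only [Bool.false_eq_true, if_false, mul_zero] at key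
      exact alive_le hX hv key.symm
    · simp [hc]
  · rw [cast_pow_sub_one hc, sub_self, zero_mul] at key
    cases b
    · simp [hc]
    · exfalso
      rw [hb, if_pos rfl, ← mul_assoc, ← pow_add, hMd] at key
      exact alive_le hX' hv key

theorem or_val (H : HatSys p l t x hat) (hl : 1 ≤ l * (p - 1)) {d s0 N : ℕ} {L : List Fm}
    (hd : (Fm.orL L).depth ≤ d) (hN : s0 + 2 * Dg p l d ≤ N) {v : 𝒜} (hv : t ^ N * v ≠ 0)
    (he : ErrFree p l s0 t hat (Fm.orL L)) {b c : Bool}
    (hc : c = true ↔ ∀ B ∈ L, t ^ (s0 + Dg p l d) * (hat B * v) = 0)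
    (hb : Eig p l t hat v (Fm.orL L) b) : b = !c := by
  have hD : Dg p l (Fm.orL L).depth ≤ Dg p l d := Dg_mono hl hd
  unfold Eig at hb
  cases c
  · cases b
    · exfalso
      have h1 : ¬ ∀ B ∈ L, t ^ (s0 + Dg p l d) * (hat B * v) = 0 := by
        intro h
        exact absurd (hc.mpr h) (by simp)
      push Not at h1
      obtain ⟨B, hB, h2⟩ := h1
      apply h2
      refine kill_le (M := s0 + Dg p l (Fm.orL L).depth) (by omega) ?_
      have h3 := he.orL hB
      simp only [Bool.false_eq_true, if_false] at hb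
      have h4 : t ^ (s0 + Dg p l (Fm.orL L).depth) * (hat B * v) =
          (t ^ s0 * (hat B * (t ^ Dg p l (Fm.orL L).depth - hat (Fm.orL L)))) * v +
            t ^ s0 * hat B * (hat (Fm.orL L) * v) := by
        rw [pow_add]; ring
      rw [h4, h3, hb, zero_mul, mul_zero, add_zero]
    · rfl
  · cases b
    · rfl
    · exfalso
      have h1 := H.orL_killed L _ v (hc.mp rfl)
      rw [hb, if_pos rfl, ← mul_assoc, ← pow_add] at h1
      exact alive_le (by omega) hv h1

variable {d s0 N : ℕ} {σ : ℕ → Fm} {τ : ℕ → List Fm}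

mutual
theorem valF_spec [hp : Fact p.Prime] [CharP 𝒜 p] (H : HatSys p l t x hat)
    (hl : 1 ≤ l * (p - 1)) {v : 𝒜} (hN : s0 + (p + 2) * Dg p l d ≤ N) (hv : t ^ N * v ≠ 0) :
    (s : FSch) → (s.inst σ τ).depth ≤ d → ErrFree p l s0 t hat (s.inst σ τ) →
      okF p l t hat (Dg p l d) σ τ v s →
      Eig p l t hat v (s.inst σ τ) (s.val p (aV p l t hat σ v)
        (bV t hat τ (s0 + Dg p l d) v) (gV p l t hat (Dg p l d) τ v))
  | .mv i, hd, he, hok => by
      unfold okF at hok
      obtain ⟨b, hb⟩ := hok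
      rw [FSch.inst, FSch.val]
      unfold aV
      by_cases h : Eig p l t hat v (σ i) true
      · rw [decide_eq_true h]; exact h
      · rw [decide_eq_false h]
        cases b
        · exact hb
        · exact absurd hb h
  | .neg s, hd, he, hok => by
      unfold okF at hok
      rw [FSch.inst] at hd he ⊢
      rw [FSch.val]
      have h1 := valF_spec H hl hN hv s (le_trans (Nat.le_succ _) hd)
        (he.sub (Fm.IsSub.neg Fm.IsSub.refl)) hok
      exact H.neg_mul hl _ v h1
  | .or ls, hd, he, hok => by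
      unfold okF at hok
      rw [FSch.inst] at hd he ⊢
      rw [FSch.val]
      obtain ⟨⟨b, hb⟩, h2⟩ := hok
      have h1 := (valL_spec H hl hN hv ls
        (fun B hB => (Nat.le_succ _).trans ((depth_orL_mem hB).trans hd))
        (fun B hB => he.sub (isSub_orL' hB)) h2).1
      have h3 := or_val H hl hd (N := N) (by nlinarith [hp.out.two_le]) hv he h1 hb
      rw [← h3]
      exact hb
  | .mod ls, hd, he, hok => by
      unfold okF at hok
      rw [FSch.inst] at hd he ⊢
      rw [FSch.val]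
      obtain ⟨⟨b, hb⟩, h2⟩ := hok
      have h1 := (valL_spec H hl hN hv ls
        (fun B hB => (Nat.le_succ _).trans ((depth_modL_mem hB).trans hd))
        (fun B hB => he.sub (isSub_modL' hB)) h2).2
      have h3 := mod_val H hl hd (N := N) (by nlinarith [hp.out.two_le]) hv h1 hb
      rw [← h3]
      exact hb
theorem valL_spec [hp : Fact p.Prime] [CharP 𝒜 p] (H : HatSys p l t x hat)
    (hl : 1 ≤ l * (p - 1)) {v : 𝒜} (hN : s0 + (p + 2) * Dg p l d ≤ N) (hv : t ^ N * v ≠ 0) :
    (ls : LSch) → (∀ B ∈ ls.inst σ τ, B.depth ≤ d) →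
      (∀ B ∈ ls.inst σ τ, ErrFree p l s0 t hat B) →
      okL p l t hat (Dg p l d) σ τ v ls →
      (ls.valF p (aV p l t hat σ v) (bV t hat τ (s0 + Dg p l d) v)
          (gV p l t hat (Dg p l d) τ v) = true ↔
        ∀ B ∈ ls.inst σ τ, t ^ (s0 + Dg p l d) * (hat B * v) = 0) ∧
      SL p l t hat (Dg p l d) (ls.inst σ τ) * v =
        ((ls.valC p (aV p l t hat σ v) (bV t hat τ (s0 + Dg p l d) v)
          (gV p l t hat (Dg p l d) τ v) : ℕ) : 𝒜) * (t ^ Dg p l d * v)
  | .nil, hd, he, hok => by
      rw [LSch.inst, LSch.valF, LSch.valC, SL_nil]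
      simp
  | .cons s ls, hd, he, hok => by
      unfold okL at hok
      rw [LSch.inst] at hd he ⊢
      rw [LSch.valF, LSch.valC]
      have h1 := valF_spec H hl hN hv s (hd _ List.mem_cons_self) (he _ List.mem_cons_self) hok.1
      obtain ⟨h2, h3⟩ := valL_spec H hl hN hv ls
        (fun B hB => hd B (List.mem_cons_of_mem _ hB))
        (fun B hB => he B (List.mem_cons_of_mem _ hB)) hok.2
      have hD : Dg p l (s.inst σ τ).depth ≤ Dg p l d := Dg_mono hl (hd _ List.mem_cons_self)
      have hpD : 2 * Dg p l d ≤ (p + 2) * Dg p l d := Nat.mul_le_mul_right _ (by omega)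
      constructor
      · rw [Bool.and_eq_true, h2]
        rw [List.forall_mem_cons]
        refine and_congr_left fun _ => ?_
        unfold Eig at h1
        rw [h1]
        cases (s.val p (aV p l t hat σ v)
          (bV t hat τ (s0 + Dg p l d) v) (gV p l t hat (Dg p l d) τ v))
        · simp
        · simp only [Bool.not_true, Bool.false_eq_true, if_true, false_iff]
          rw [← mul_assoc, ← pow_add]
          exact alive_le (by omega) hv
      · rw [SL_cons, add_mul, h3, mul_assoc]
        unfold Eig at h1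
        rw [h1]
        cases (s.val p (aV p l t hat σ v)
          (bV t hat τ (s0 + Dg p l d) v) (gV p l t hat (Dg p l d) τ v))
        · simp
        · simp only [if_true, Bool.toNat_true]
          rw [← mul_assoc, ← pow_add, Nat.sub_add_cancel hD]
          push_cast
          ring
  | .app j ls, hd, he, hok => by
      unfold okL at hok
      rw [LSch.inst] at hd he ⊢
      rw [LSch.valF, LSch.valC]
      obtain ⟨h2, h3⟩ := valL_spec H hl hN hv ls
        (fun B hB => hd B (List.mem_append_right _ hB))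
        (fun B hB => he B (List.mem_append_right _ hB)) hok.2
      constructor
      · rw [Bool.and_eq_true, h2, List.forall_mem_append]
        refine and_congr_left fun _ => ?_
        unfold bV
        rw [decide_eq_true_eq]
      · rw [SL_append, add_mul, h3]
        have h4 : SL p l t hat (Dg p l d) (τ j) * v =
            ((gV p l t hat (Dg p l d) τ v j : ℕ) : 𝒜) * (t ^ Dg p l d * v) := by
          unfold gV
          rw [dif_pos hok.1]
          exact Classical.choose_spec hok.1
        rw [h4]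
        push_cast
        ring
end

theorem alive_of_le_mul {a v : 𝒜} {M : ℕ} (h : t ^ M * (a * v) ≠ 0) : t ^ M * v ≠ 0 := by
  intro h0
  apply h
  rw [show t ^ M * (a * v) = a * (t ^ M * v) by ring, h0, mul_zero]

/-- common eigenvectors for the conclusion and the premises -/
theorem splitList [hp : Fact p.Prime] [CharP 𝒜 p] (H : HatSys p l t x hat)
    (hl : 1 ≤ l * (p - 1)) : (S : List FSch) → ∀ M, 2 * Dg p l d ≤ M → ∀ v : 𝒜,
      (∀ s ∈ S, (s.inst σ τ).depth ≤ d) →
      t ^ (M + (S.map cntF).sum * (Dg p l d * (p - 1))) * v ≠ 0 →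
      ∃ a : 𝒜, (∀ s ∈ S, okF p l t hat (Dg p l d) σ τ (a * v) s) ∧ t ^ M * (a * v) ≠ 0
  | [], M, hM, v, hd, hv => ⟨1, by simp, by simpa using hv⟩
  | s :: S, M, hM, v, hd, hv => by
      have hv' : t ^ ((M + cntF s * (Dg p l d * (p - 1))) +
          (S.map cntF).sum * (Dg p l d * (p - 1))) * v ≠ 0 := by
        convert hv using 3
        rw [List.map_cons, List.sum_cons]
        ring
      obtain ⟨a, h1, h2⟩ := splitList H hl S (M + cntF s * (Dg p l d * (p - 1))) (by omega) v
        (fun s hs => hd s (List.mem_cons_of_mem _ hs)) hv'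
      obtain ⟨a', h3, h4⟩ := splitF H hl s M hM (a * v) (hd s List.mem_cons_self) h2
      refine ⟨a' * a, ?_, by rwa [mul_assoc]⟩
      intro s' hs'
      rw [mul_assoc]
      rcases List.mem_cons.mp hs' with rfl | hs'
      · exact h3
      · exact okF_mul a' s' (h1 s' hs')

/-- the loss of a rule -/
def ruleCost (r : Rule) : ℕ := ((r.concl :: r.prems).map cntF).sum

/-- Soundness of a rule with slack. -/
theorem rule_sound [hp : Fact p.Prime] [CharP 𝒜 p] (H : HatSys p l t x hat)
    (hl : 1 ≤ l * (p - 1)) {r : Rule} (hr : r.Sound p)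
    (hd : ∀ s ∈ r.concl :: r.prems, (s.inst σ τ).depth ≤ d)
    (he : ∀ s ∈ r.concl :: r.prems, ErrFree p l s0 t hat (s.inst σ τ)) {e0 : ℕ} {Q : 𝒜}
    (hprem : ∀ s ∈ r.prems,
      t ^ e0 * ((t ^ Dg p l (s.inst σ τ).depth - hat (s.inst σ τ)) * Q) = 0) :
    t ^ (e0 + s0 + (p + 2) * Dg p l d + ruleCost r * (Dg p l d * (p - 1))) *
      ((t ^ Dg p l (r.concl.inst σ τ).depth - hat (r.concl.inst σ τ)) * Q) = 0 := by
  by_contra hne
  set C := r.concl.inst σ τ with hC
  set v0 := (t ^ Dg p l C.depth - hat C) * Q with hv0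
  set M := e0 + s0 + (p + 2) * Dg p l d with hM
  have hpD : 2 * Dg p l d ≤ (p + 2) * Dg p l d := Nat.mul_le_mul_right _ (by omega)
  obtain ⟨a, hok, hal⟩ := splitList (σ := σ) (τ := τ) H hl (r.concl :: r.prems) M
    (by omega) v0 hd hne
  set v := a * v0 with hv
  have hN : s0 + (p + 2) * Dg p l d ≤ M := by omega
  have hval : ∀ s ∈ r.concl :: r.prems, Eig p l t hat v (s.inst σ τ)
      (s.val p (aV p l t hat σ v) (bV t hat τ (s0 + Dg p l d) v)
        (gV p l t hat (Dg p l d) τ v)) := fun s hs =>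
    valF_spec H hl hN hal s (hd s hs) (he s hs) (hok s hs)
  have hprem' : ∀ s ∈ r.prems, s.val p (aV p l t hat σ v) (bV t hat τ (s0 + Dg p l d) v)
        (gV p l t hat (Dg p l d) τ v) = true := by
    intro s hs
    by_contra hcon
    rw [Bool.not_eq_true] at hcon
    have h1 := hval s (List.mem_cons_of_mem _ hs)
    rw [hcon] at h1
    unfold Eig at h1
    simp only [Bool.false_eq_true, if_false] at h1
    have h2 := hprem s hs
    have h3 : t ^ (e0 + Dg p l (s.inst σ τ).depth) * v =
        a * (t ^ Dg p l C.depth - hat C) *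
          (t ^ e0 * ((t ^ Dg p l (s.inst σ τ).depth - hat (s.inst σ τ)) * Q)) +
        t ^ e0 * (hat (s.inst σ τ) * v) := by
      rw [hv, hv0, pow_add]; ring
    rw [h2, h1, mul_zero, mul_zero, add_zero] at h3
    have h4 : Dg p l (s.inst σ τ).depth ≤ Dg p l d :=
      Dg_mono hl (hd s (List.mem_cons_of_mem _ hs))
    exact alive_le (by omega) hal h3
  have hconcl := Rule.Sound.val hp.out.pos hr _ _ _
    (fun j hj => gV_zero (alive_le (by omega) hal) j hj) hprem'
  have h1 := hval r.concl List.mem_cons_self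
  rw [hconcl] at h1
  unfold Eig at h1
  rw [if_pos rfl] at h1
  have h2 : hat C * v = 0 := by
    have := H.idem C
    rw [hv, hv0]
    linear_combination (-a * Q) * this
  have h4 : Dg p l C.depth ≤ Dg p l d := Dg_mono hl (hd _ List.mem_cons_self)
  rw [← hC, h2] at h1
  exact alive_le (by omega) hal h1.symm

end

end Pool.Agent.Helper80.FW
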